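import Pool.Agent.H.MP_5a4a69_co.C

namespace Pool.Agent.Results.MP_5a4a69_co.Yes

/-- A perfect matching of `K_N`: a set partition of the `N` vertices into blocks of size 2. -/
def IsPM {N : ℕ} (m : Finset (Finset (Fin N))) : Prop :=
  (∀ e ∈ m, e.card = 2) ∧ ∀ v, ∃! e, e ∈ m ∧ v ∈ e

/-- There are `n ≥ 4` and a non-empty set `D` of perfect matchings of `K_{2n}`, missing some
perfect matching, and `c > 0`, such that any three pairwise disjoint edges lie together in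
exactly `c` members of `D`. -/
theorem result : ∃ n : ℕ, 4 ≤ n ∧ ∃ D : Finset (Finset (Finset (Fin (2 * n)))),
    D.Nonempty ∧ (∀ m ∈ D, IsPM m) ∧ (∃ m, IsPM m ∧ m ∉ D) ∧
    ∃ c : ℕ, 0 < c ∧ ∀ e₁ e₂ e₃ : Finset (Fin (2 * n)), e₁.card = 2 → e₂.card = 2 → e₃.card = 2 →
      Disjoint e₁ e₂ → Disjoint e₁ e₃ → Disjoint e₂ e₃ →
      (D.filter fun m => e₁ ∈ m ∧ e₂ ∈ m ∧ e₃ ∈ m).card = c := by
  open Pool.Agent.H.MP_5a4a69_co in
  refine ⟨6, by norm_num, D, ?_, fun m hm => D_pm hm, ⟨_, ph_pm (F_inv g0.1), not_mem⟩, 6,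
    by norm_num, fun e₁ e₂ e₃ h1 h2 h3 d1 d2 d3 => cnt' e₁ e₂ e₃ h1 h2 h3 d1 d2 d3⟩
  have h := Pool.Agent.H.MP_5a4a69_co.cnt' {0, 1} {2, 3} {4, 5} (by decide) (by decide) (by decide)
    (by decide) (by decide) (by decide)
  obtain ⟨m, hm⟩ := Finset.card_pos.1 (h ▸ (by norm_num : 0 < 6))
  exact ⟨m, (Finset.mem_filter.1 hm).1⟩

end Pool.Agent.Results.MP_5a4a69_co.Yes
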